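import Pool.Agent.helper73.SPV.Spec

/-!
# Row sp:HFG (MP_a2a22c_al): additive groups of endomorphisms of a lattice
-/

set_option autoImplicit false

open Matrix Module Pool.Agent.SHL Pool.Agent.H48SL

namespace Pool.Agent.SPV

theorem HFG : HFG_stmt := by
  intro V _ _ _ Λ hΛ hspan Q _ f hinj hadd hf
  refine ⟨fun x y => hinj (by rw [hadd, hadd, add_comm]), ?_⟩
  obtain ⟨S, hS⟩ := hΛ
  -- the lattice is a noetherian `ℤ`-module
  have hfg : AddGroup.FG Λ := (AddGroup.fg_iff_addSubgroup_fg Λ).2 ⟨S, hS⟩
  have hfin : Module.Finite ℤ Λ := Module.Finite.iff_addGroup_fg.2 hfg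
  have hSΛ : ∀ s ∈ S, s ∈ Λ := by
    intro s hs
    rw [← hS]
    exact AddSubgroup.subset_closure hs
  have h1 : f 1 = 0 := by
    have h := hadd 1 1
    rw [mul_one] at h
    exact left_eq_add.mp h
  let φ : Q →* Multiplicative (S → Λ) :=
    { toFun := fun x => Multiplicative.ofAdd fun s => ⟨f x s.1, hf x s.1 (hSΛ s.1 s.2)⟩
      map_one' := by
        rw [← ofAdd_zero]
        congr 1
        funext s
        apply Subtype.ext
        show f 1 s.1 = 0
        rw [h1]
        rfl
      map_mul' := by
        intro x y
        rw [← ofAdd_add]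
        congr 1
        funext s
        apply Subtype.ext
        show f (x * y) s.1 = f x s.1 + f y s.1
        rw [hadd]
        rfl }
  have hφ : Function.Injective φ := by
    intro x y hxy
    apply hinj
    have h2 : ∀ s ∈ S, f x s = f y s := by
      intro s hs
      have h3 := congrFun (Multiplicative.ofAdd.injective hxy) ⟨s, hs⟩
      exact congrArg Subtype.val h3
    have h4 : ∀ w ∈ Λ, f x w = f y w := by
      intro w hw
      rw [← hS] at hw
      induction hw using AddSubgroup.closure_induction with
      | mem w hw => exact h2 w hw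
      | zero => rw [map_zero, map_zero]
      | add a b _ _ ha hb => rw [map_add, map_add, ha, hb]
      | neg a _ ha => rw [map_neg, map_neg, ha]
    apply LinearMap.ext_on (s := (Λ : Set V)) hspan
    intro w hw
    exact h4 w hw
  have hP : (AddSubgroup.toSubgroup.symm φ.range : AddSubgroup (S → Λ)).FG := by
    have h5 : (AddSubgroup.toIntSubmodule (AddSubgroup.toSubgroup.symm φ.range)).FG :=
      IsNoetherian.noetherian _
    exact (Submodule.fg_iff_addSubgroup_fg _).1 h5
  have hR : φ.range.FG := by
    have h6 := (AddSubgroup.fg_iff_mul_fg _).1 hP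
    rwa [OrderIso.apply_symm_apply] at h6
  have hR2 : Group.FG φ.range := (Group.fg_iff_subgroup_fg _).2 hR
  exact Group.fg_of_surjective (f := (MonoidHom.ofInjective hφ).symm.toMonoidHom)
    (MonoidHom.ofInjective hφ).symm.surjective

end Pool.Agent.SPV
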